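import Pool.Agent.Helper13.GGood

/-!
# Existence of adapted bijections (row E2)
-/

set_option autoImplicit false
set_option linter.unusedSectionVars false

open Finset

namespace Pool.Agent.Helper7.GPat

/-- Sorting: links go near, the pairs (partner, loser) are separated. -/
theorem exists_pairing {X Y : Type} [Fintype X] [Fintype Y] [DecidableEq X] [DecidableEq Y]
    (hXY : Fintype.card X = Fintype.card Y) (num : Y → ℤ) (hnum : Function.Injective num)
    (Lk Ls : Finset X) (hd : Disjoint Lk Ls) (m : X → X) (hm : ∀ x ∈ Ls, m x ∉ Ls ∧ m x ∉ Lk)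
    (hmi : Set.InjOn m Ls) (Near : Finset Y) (hN : Lk.card ≤ Near.card) :
    ∃ e : X ≃ Y, (∀ x ∈ Lk, e x ∈ Near) ∧ ∀ x ∈ Ls, ∀ x' ∈ Ls, x ≠ x' →
      PLt (num (e x)) (num (e (m x))) (num (e x')) (num (e (m x'))) ∨
      PLt (num (e x')) (num (e (m x'))) (num (e x)) (num (e (m x))) := by
  classical
  -- the links
  obtain ⟨f0, hf0⟩ : ∃ f0 : X → Y, (∀ x ∈ Lk, f0 x ∈ Near) ∧ Set.InjOn f0 Lk := by
    obtain ⟨N', hN', hc⟩ := Finset.exists_subset_card_eq hN
    have e0 : Lk ≃ N' := Finset.equivOfCardEq hc.symm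
    by_cases hY : Nonempty Y
    · obtain ⟨y0⟩ := hY
      refine ⟨fun x => if h : x ∈ Lk then (e0 ⟨x, h⟩ : Y) else y0, ?_, ?_⟩
      · intro x hx
        simp only [dif_pos hx]
        exact hN' (e0 ⟨x, hx⟩).2
      · intro x hx x' hx' hxx
        rw [Finset.mem_coe] at hx hx'
        simp only [dif_pos hx, dif_pos hx'] at hxx
        have := e0.injective (Subtype.ext hxx)
        exact congrArg Subtype.val this
    · have hX : IsEmpty X := by
        rw [← Fintype.card_eq_zero_iff, hXY, Fintype.card_eq_zero_iff]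
        exact not_nonempty_iff.1 hY
      exact ⟨fun x => (hX.false x).elim, fun x => (hX.false x).elim, fun x => (hX.false x).elim⟩
  obtain ⟨hf1, hf2⟩ := hf0
  set Y1 : Finset Y := Finset.univ \ Lk.image f0 with hY1
  -- the remaining rows in the order of `num`
  set A : Finset ℤ := Y1.image num with hA
  have hAc : A.card = Y1.card := Finset.card_image_of_injective _ hnum
  have hY1c : Y1.card + Lk.card = Fintype.card X := by
    rw [hY1, Finset.card_sdiff_of_subset (Finset.subset_univ _), Finset.card_image_of_injOn hf2,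
      Finset.card_univ, hXY]
    have : Lk.card ≤ Fintype.card Y := by
      rw [← hXY]
      exact Finset.card_le_univ _
    omega
  have hLs2 : 2 * Ls.card ≤ Y1.card := by
    have h1 : (Ls ∪ Ls.image m ∪ Lk).card ≤ Fintype.card X := Finset.card_le_univ _
    have h2 : Disjoint Ls (Ls.image m) := by
      rw [Finset.disjoint_left]
      intro x hx hx'
      rw [Finset.mem_image] at hx'
      obtain ⟨x', hx', rfl⟩ := hx'
      exact (hm x' hx').1 hx
    have h3 : Disjoint (Ls ∪ Ls.image m) Lk := by
      rw [Finset.disjoint_left]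
      intro x hx hx'
      rw [Finset.mem_union, Finset.mem_image] at hx
      rcases hx with hx | ⟨x', hx2, rfl⟩
      · exact (Finset.disjoint_left.1 hd hx') hx
      · exact (hm x' hx2).2 hx'
    rw [Finset.card_union_of_disjoint h3, Finset.card_union_of_disjoint h2,
      Finset.card_image_of_injOn hmi] at h1
    omega
  set o := A.orderEmbOfFin rfl with ho
  have hoY : ∀ i, ∃ y ∈ Y1, num y = o i := by
    intro i
    have := Finset.orderEmbOfFin_mem A rfl i
    exact Finset.mem_image.1 this
  choose y hyY hyo using hoY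
  -- numbering of the losers
  obtain ⟨ix⟩ : Nonempty (Ls ≃ Fin Ls.card) := ⟨Ls.equivFin⟩
  have hlt : ∀ (x : Ls) (b : ℕ), b < 2 → 2 * (ix x : ℕ) + b < A.card := by
    intro x b hb
    have := (ix x).2
    rw [hAc]
    omega
  -- the partial map
  set f : X → Y := fun x => if h : x ∈ Ls then y ⟨2 * (ix ⟨x, h⟩ : ℕ) + 1, hlt _ 1 (by norm_num)⟩
    else if h' : ∃ x' : Ls, m x' = x then y ⟨2 * (ix h'.choose : ℕ) + 0, hlt _ 0 (by norm_num)⟩
    else f0 x with hf
  have hfL : ∀ (x : X) (h : x ∈ Ls), f x = y ⟨2 * (ix ⟨x, h⟩ : ℕ) + 1, hlt _ 1 (by norm_num)⟩ := by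
    intro x h
    simp only [hf]
    rw [dif_pos h]
  have hfM : ∀ (x : X) (h : x ∈ Ls), f (m x) =
      y ⟨2 * (ix ⟨x, h⟩ : ℕ) + 0, hlt _ 0 (by norm_num)⟩ := by
    intro x h
    have h1 : m x ∉ Ls := (hm x h).1
    have h2 : ∃ x' : Ls, m x' = m x := ⟨⟨x, h⟩, rfl⟩
    have h3 : h2.choose = ⟨x, h⟩ :=
      Subtype.ext (hmi h2.choose.2 h h2.choose_spec)
    simp only [hf]
    rw [dif_neg h1, dif_pos h2]
    simp only [h3]
  have hfK : ∀ x ∈ Lk, f x = f0 x := by
    intro x h
    have h1 : x ∉ Ls := Finset.disjoint_left.1 hd h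
    have h2 : ¬ ∃ x' : Ls, m x' = x := by
      rintro ⟨x', rfl⟩
      exact (hm x' x'.2).2 h
    simp only [hf]
    rw [dif_neg h1, dif_neg h2]
  have hyinj : ∀ i j, y i = y j → i = j := by
    intro i j hij
    have : o i = o j := by rw [← hyo, ← hyo, hij]
    exact o.injective this
  have hyK : ∀ i, ∀ x ∈ Lk, y i ≠ f0 x := by
    intro i x hx h
    have := hyY i
    rw [hY1, Finset.mem_sdiff, h] at this
    exact this.2 (Finset.mem_image_of_mem _ hx)
  have hinj : Set.InjOn f (Lk ∪ (Ls ∪ Ls.image m) : Finset X) := by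
    -- classify
    have hcl : ∀ x ∈ (Lk ∪ (Ls ∪ Ls.image m) : Finset X), (x ∈ Lk ∧ f x = f0 x) ∨
        ∃ (x' : X) (h : x' ∈ Ls) (b : ℕ) (hb : b < 2), x = (if b = 1 then x' else m x') ∧
          f x = y ⟨2 * (ix ⟨x', h⟩ : ℕ) + b, hlt _ b hb⟩ := by
      intro x hx
      rw [Finset.mem_union, Finset.mem_union, Finset.mem_image] at hx
      rcases hx with hx | hx | ⟨x', hx', rfl⟩
      · exact Or.inl ⟨hx, hfK x hx⟩
      · exact Or.inr ⟨x, hx, 1, by norm_num, by simp, hfL x hx⟩
      · exact Or.inr ⟨x', hx', 0, by norm_num, by simp, hfM x' hx'⟩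
    intro x hx x' hx' hxx
    rw [Finset.mem_coe] at hx hx'
    rcases hcl x hx with ⟨h1, h2⟩ | ⟨z, hz, b, hb, h1, h2⟩
    · rcases hcl x' hx' with ⟨h1', h2'⟩ | ⟨z', hz', b', hb', h1', h2'⟩
      · rw [h2, h2'] at hxx
        exact hf2 h1 h1' hxx
      · rw [h2, h2'] at hxx
        exact absurd hxx.symm (hyK _ x h1)
    · rcases hcl x' hx' with ⟨h1', h2'⟩ | ⟨z', hz', b', hb', h1', h2'⟩
      · rw [h2, h2'] at hxx
        exact absurd hxx (hyK _ x' h1')
      · rw [h2, h2'] at hxx
        have h3 := congrArg Fin.val (hyinj _ _ hxx)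
        simp only at h3
        have h4 : b = b' := by omega
        have h5 : (ix ⟨z, hz⟩ : ℕ) = (ix ⟨z', hz'⟩ : ℕ) := by omega
        have h6 := congrArg Subtype.val (ix.injective (Fin.ext h5))
        simp only at h6
        rw [h1, h1', h4, h6]
  obtain ⟨e, he⟩ : ∃ e : X ≃ Y, ∀ x ∈ (Lk ∪ (Ls ∪ Ls.image m) : Finset X), e x = f x := by
    obtain ⟨g, hg⟩ := Finset.exists_equiv_extend_of_card_eq (t := (Finset.univ : Finset Y))
      (by rw [Finset.card_univ, hXY]) (Finset.subset_univ _) hinj
    refine ⟨g.trans (Equiv.subtypeUnivEquiv (fun y => Finset.mem_univ y)), ?_⟩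
    intro x hx
    exact hg x hx
  refine ⟨e, ?_, ?_⟩
  · intro x hx
    rw [he x (by simp [hx]), hfK x hx]
    exact hf1 x hx
  · intro x hx x' hx' hne
    have e1 : e x = f x := he x (by simp [hx])
    have e2 : e x' = f x' := he x' (by simp [hx'])
    have e3 : e (m x) = f (m x) := he (m x) (by
      rw [Finset.mem_union, Finset.mem_union]
      exact Or.inr (Or.inr (Finset.mem_image_of_mem _ hx)))
    have e4 : e (m x') = f (m x') := he (m x') (by
      rw [Finset.mem_union, Finset.mem_union]
      exact Or.inr (Or.inr (Finset.mem_image_of_mem _ hx')))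
    rw [e1, e2, e3, e4, hfL x hx, hfL x' hx', hfM x hx, hfM x' hx', hyo, hyo, hyo, hyo]
    have h1 : (ix ⟨x, hx⟩ : ℕ) ≠ (ix ⟨x', hx'⟩ : ℕ) := by
      intro h
      have := ix.injective (Fin.ext h)
      exact hne (congrArg Subtype.val this)
    have hmono : ∀ i j : Fin A.card, i.1 < j.1 → o i < o j := fun i j hij => by
      exact o.lt_iff_lt.2 hij
    rcases lt_or_gt_of_ne h1 with h | h
    · left
      refine ⟨hmono _ _ ?_, hmono _ _ ?_, hmono _ _ ?_, hmono _ _ ?_⟩ <;> simp only <;> omega
    · right
      refine ⟨hmono _ _ ?_, hmono _ _ ?_, hmono _ _ ?_, hmono _ _ ?_⟩ <;> simp only <;> omega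

variable {D : Des} {G : Type} [AddCommGroup G] {Row : Type} [Fintype Row] [DecidableEq Row]

/-- The label that the row of a column must have. -/
def kcol (T : Pat D G Row) (own : D.Lnk → Fin D.k) : D.Col → Fin D.Γ ⊕ Fin D.k
  | .inl v => .inr v.1
  | .inr (.inl c) => if T.Loser c then .inr (D.comp c.1) else .inl c.1
  | .inr (.inr c) => .inr (own c)

/-- The number of the losers of a group. -/
theorem card_loser (T : Pat D G Row) (hn1 : ∀ g, D.lam g ≤ D.n g) (g : Fin D.Γ) :
    (Finset.univ.filter fun a : Fin (D.n g) => T.Loser ⟨g, a⟩).card = D.lam g - T.win g := by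
  have h1 : (Finset.univ.filter fun a : Fin (D.n g) => T.Loser ⟨g, a⟩).image Fin.val =
      Finset.Ico (T.win g) (D.lam g) := by
    ext i
    rw [Finset.mem_image, Finset.mem_Ico]
    constructor
    · rintro ⟨a, ha, rfl⟩
      have h2 := (Finset.mem_filter.1 ha).2
      exact ⟨h2.2, h2.1⟩
    · rintro ⟨h1, h2⟩
      refine ⟨⟨i, lt_of_lt_of_le h2 (hn1 g)⟩, ?_, rfl⟩
      exact Finset.mem_filter.2 ⟨Finset.mem_univ _, h2, h1⟩
  have h2 := congrArg Finset.card h1
  rw [Finset.card_image_of_injective _ Fin.val_injective, Nat.card_Ico] at h2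
  exact h2

theorem exists_good (T : Pat D G Row) (hn1 : ∀ g, D.lam g ≤ D.n g)
    (hn2 : ∀ g, D.n g - D.lam g ≤ T.cnt g) (hn3 : ∀ g, T.cnt g ≤ D.n g)
    (hnum : ∀ r r' j j', T.lab r = .inr j → T.lab r' = .inr j' → T.num r = T.num r' → r = r')
    (own : D.Lnk → Fin D.k) (near : Fin D.k → Finset Row)
    (hnear : ∀ j, ∀ r ∈ near j, T.lab r = .inr j ∧ ∀ c : D.Lnk, own c = j →
      T.see r (.inr (.inr c.1)) = some (0, T.num r))
    (hcard : ∀ j, (Finset.univ.filter fun c : D.Lnk => own c = j).card ≤ (near j).card)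
    (hcnt : ∀ j, (Finset.univ.filter fun r => T.lab r = .inr j).card =
      D.μ j + (Finset.univ.filter fun c : D.Grp => T.Loser c ∧ D.comp c.1 = j).card +
        (Finset.univ.filter fun c : D.Lnk => own c = j).card) :
    ∃ σ : D.Col ≃ Row, Good T σ := by
  classical
  set κ := kcol T own with hκ
  -- the groups
  have hg : ∀ g : Fin D.Γ, Nonempty ({c // κ c = .inl g} ≃ {r // T.lab r = .inl g}) := by
    intro g
    refine ⟨Fintype.equivOfCardEq ?_⟩
    have h1 : Fintype.card {r // T.lab r = .inl g} = T.cnt g := by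
      rw [Fintype.card_subtype]
      rfl
    have h2 : Fintype.card {c // κ c = .inl g} =
        Fintype.card {a : Fin (D.n g) // ¬ T.Loser ⟨g, a⟩} := by
      refine Fintype.card_congr ?_
      refine ⟨fun c => ?_, fun a => ⟨.inr (.inl ⟨g, a.1⟩), ?_⟩, ?_, ?_⟩
      · obtain ⟨c, hc⟩ := c
        match c, hc with
        | .inl v, hc => exact absurd hc (by simp [hκ, kcol])
        | .inr (.inl c), hc =>
          have h3 : ¬ T.Loser c ∧ c.1 = g := by
            simp only [hκ, kcol] at hc
            by_cases hL : T.Loser c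
            · rw [if_pos hL] at hc
              exact absurd hc (by simp)
            · rw [if_neg hL] at hc
              exact ⟨hL, Sum.inl.inj hc⟩
          exact ⟨h3.2 ▸ c.2, by
            obtain ⟨g', a⟩ := c
            obtain ⟨h4, h5⟩ := h3
            simp only at h5
            subst h5
            exact h4⟩
        | .inr (.inr c), hc => exact absurd hc (by simp [hκ, kcol])
      · simp only [hκ, kcol]
        rw [if_neg a.2]
      · rintro ⟨c, hc⟩
        match c, hc with
        | .inl v, hc => exact absurd hc (by simp [hκ, kcol])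
        | .inr (.inl ⟨g', a⟩), hc =>
          have h3 : g' = g := by
            simp only [hκ, kcol] at hc
            by_cases hL : T.Loser ⟨g', a⟩
            · rw [if_pos hL] at hc
              exact absurd hc (by simp)
            · rw [if_neg hL] at hc
              exact Sum.inl.inj hc
          subst h3
          rfl
        | .inr (.inr c), hc => exact absurd hc (by simp [hκ, kcol])
      · intro a
        rfl
    have h3 : Fintype.card {a : Fin (D.n g) // ¬ T.Loser ⟨g, a⟩} =
        D.n g - (D.lam g - T.win g) := by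
      rw [Fintype.card_subtype_compl, Fintype.card_fin, Fintype.card_subtype, card_loser T hn1]
    rw [h1, h2, h3]
    have h4 := hn1 g
    have h5 := hn2 g
    have h6 := hn3 g
    unfold Pat.win
    omega
  -- the components
  have hj : ∀ j : Fin D.k, ∃ e : {c // κ c = .inr j} ≃ {r // T.lab r = .inr j},
      (∀ (c : D.Lnk) (h : κ (.inr (.inr c)) = .inr j), (e ⟨_, h⟩).1 ∈ near j) ∧
      ∀ (c c' : D.Grp) (h : κ (.inr (.inl c)) = .inr j) (h' : κ (.inr (.inl c')) = .inr j)
        (hm : κ (.inl (D.mainOf c)) = .inr j) (hm' : κ (.inl (D.mainOf c')) = .inr j), c ≠ c' →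
        PLt (T.num (e ⟨_, h⟩).1) (T.num (e ⟨_, hm⟩).1) (T.num (e ⟨_, h'⟩).1)
          (T.num (e ⟨_, hm'⟩).1) ∨
        PLt (T.num (e ⟨_, h'⟩).1) (T.num (e ⟨_, hm'⟩).1) (T.num (e ⟨_, h⟩).1)
          (T.num (e ⟨_, hm⟩).1) := by
    intro j
    have hL : ∀ c : D.Grp, κ (.inr (.inl c)) = .inr j ↔ T.Loser c ∧ D.comp c.1 = j := by
      intro c
      simp only [hκ, kcol]
      by_cases h : T.Loser c
      · rw [if_pos h]
        constructor
        · intro h'
          exact ⟨h, Sum.inr.inj h'⟩
        · intro h'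
          rw [h'.2]
      · rw [if_neg h]
        constructor
        · intro h'
          exact absurd h' (by simp)
        · intro h'
          exact absurd h'.1 h
    have hXY : Fintype.card {c // κ c = .inr j} = Fintype.card {r // T.lab r = .inr j} := by
      rw [Fintype.card_subtype (fun r => T.lab r = .inr j), hcnt j]
      rw [Fintype.card_congr (Equiv.subtypeSum), Fintype.card_sum,
        Fintype.card_congr (Equiv.subtypeSum (p := fun c : D.Grp ⊕ D.Lnk => κ (.inr c) = .inr j)),
        Fintype.card_sum]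
      have e1 : Fintype.card {v : D.Main // κ (.inl v) = .inr j} = D.μ j := by
        have : Fintype.card {v : D.Main // κ (.inl v) = .inr j} = Fintype.card (Fin (D.μ j)) := by
          refine Fintype.card_congr ⟨fun v => ?_, fun a => ⟨⟨j, a⟩, by simp [hκ, kcol]⟩, ?_, ?_⟩
          · obtain ⟨⟨j', a⟩, hv⟩ := v
            have h3 : j' = j := by
              simp only [hκ, kcol] at hv
              exact Sum.inr.inj hv
            exact h3 ▸ a
          · rintro ⟨⟨j', a⟩, hv⟩
            have h3 : j' = j := by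
              simp only [hκ, kcol] at hv
              exact Sum.inr.inj hv
            subst h3
            rfl
          · intro a
            rfl
        rw [this, Fintype.card_fin]
      have e2 : Fintype.card {c : D.Grp // κ (.inr (.inl c)) = .inr j} =
          (Finset.univ.filter fun c : D.Grp => T.Loser c ∧ D.comp c.1 = j).card := by
        rw [Fintype.card_subtype]
        congr 1
        ext c
        simp only [Finset.mem_filter, Finset.mem_univ, true_and]
        exact hL c
      have e3 : Fintype.card {c : D.Lnk // κ (.inr (.inr c)) = .inr j} =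
          (Finset.univ.filter fun c : D.Lnk => own c = j).card := by
        rw [Fintype.card_subtype]
        congr 1
        ext c
        simp only [Finset.mem_filter, Finset.mem_univ, true_and, hκ, kcol]
        constructor
        · exact fun h => Sum.inr.inj h
        · exact fun h => by rw [h]
      rw [e1, e2, e3, add_assoc]
    -- the partner
    set m : {c // κ c = .inr j} → {c // κ c = .inr j} := fun x =>
      match x with
      | ⟨.inr (.inl c), h⟩ => ⟨.inl (D.mainOf c), by
          have := ((hL c).1 h).2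
          simp only [hκ, kcol, Des.mainOf]
          rw [this]⟩
      | x => x with hm
    set Lk : Finset {c // κ c = .inr j} :=
      Finset.univ.filter fun x => ∃ c : D.Lnk, x.1 = .inr (.inr c) with hLk
    set Ls : Finset {c // κ c = .inr j} :=
      Finset.univ.filter fun x => ∃ c : D.Grp, x.1 = .inr (.inl c) with hLs
    have hmem : ∀ x ∈ Ls, ∃ (c : D.Grp) (h : κ (.inr (.inl c)) = .inr j),
        x = ⟨.inr (.inl c), h⟩ := by
      rintro ⟨x, hx⟩ hx'
      rw [hLs, Finset.mem_filter] at hx'
      obtain ⟨-, c, hc⟩ := hx'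
      simp only at hc
      subst hc
      exact ⟨c, hx, rfl⟩
    have hd : Disjoint Lk Ls := by
      rw [Finset.disjoint_left]
      intro x hx hx'
      rw [hLk, Finset.mem_filter] at hx
      rw [hLs, Finset.mem_filter] at hx'
      obtain ⟨-, c, hc⟩ := hx
      obtain ⟨-, c', hc'⟩ := hx'
      rw [hc] at hc'
      exact absurd hc' (by simp)
    have hm1 : ∀ x ∈ Ls, m x ∉ Ls ∧ m x ∉ Lk := by
      intro x hx
      obtain ⟨c, h, rfl⟩ := hmem x hx
      rw [hLs, hLk, Finset.mem_filter, Finset.mem_filter]
      constructor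
      · rintro ⟨-, c', hc'⟩
        exact absurd hc' (by simp [hm])
      · rintro ⟨-, c', hc'⟩
        exact absurd hc' (by simp [hm])
    have hmi : Set.InjOn m Ls := by
      intro x hx x' hx' hxx
      rw [Finset.mem_coe] at hx hx'
      obtain ⟨c, h, rfl⟩ := hmem x hx
      obtain ⟨c', h', rfl⟩ := hmem x' hx'
      have h1 : D.mainOf c = D.mainOf c' := by
        have := congrArg Subtype.val hxx
        simp only [hm] at this
        exact Sum.inl.inj this
      have h2 := ((hL c).1 h).1
      have h3 := ((hL c').1 h').1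
      obtain ⟨g, a⟩ := c
      obtain ⟨g', a'⟩ := c'
      have h4 := D.spec_inj g g' a a' h2.1 h3.1 h1
      subst h4
      have h5 : D.iota g a = D.iota g a' := by
        simp only [Des.mainOf, Sigma.mk.injEq, heq_eq_eq, true_and] at h1
        exact h1
      have h6 := D.iota_inj g h5
      subst h6
      rfl
    set Near : Finset {r // T.lab r = .inr j} := Finset.univ.filter fun y => y.1 ∈ near j with hNear
    have hN : Lk.card ≤ Near.card := by
      have e1 : Lk.card = (Finset.univ.filter fun c : D.Lnk => own c = j).card := by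
        symm
        refine Finset.card_bij (fun c hc => ⟨.inr (.inr c), ?_⟩) ?_ ?_ ?_
        · rw [Finset.mem_filter] at hc
          simp only [hκ, kcol]
          rw [hc.2]
        · intro c hc
          rw [hLk, Finset.mem_filter]
          exact ⟨Finset.mem_univ _, c, rfl⟩
        · intro c hc c' hc' hcc
          have := congrArg Subtype.val hcc
          simp only at this
          exact Sum.inr.inj (Sum.inr.inj this)
        · rintro ⟨x, hx⟩ hx'
          rw [hLk, Finset.mem_filter] at hx'
          obtain ⟨-, c, hc⟩ := hx'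
          simp only at hc
          subst hc
          refine ⟨c, ?_, rfl⟩
          rw [Finset.mem_filter]
          simp only [hκ, kcol] at hx
          exact ⟨Finset.mem_univ _, Sum.inr.inj hx⟩
      have e2 : (near j).card = Near.card := by
        refine Finset.card_bij (fun r hr => ⟨r, (hnear j r hr).1⟩) ?_ ?_ ?_
        · intro r hr
          rw [hNear, Finset.mem_filter]
          exact ⟨Finset.mem_univ _, hr⟩
        · intro r hr r' hr' hrr
          exact congrArg Subtype.val hrr
        · rintro ⟨r, hr⟩ hr'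
          rw [hNear, Finset.mem_filter] at hr'
          exact ⟨r, hr'.2, rfl⟩
      rw [e1, ← e2]
      exact hcard j
    obtain ⟨e, he1, he2⟩ := exists_pairing hXY (fun y => T.num y.1)
      (fun y y' h => Subtype.ext (hnum y.1 y'.1 j j y.2 y'.2 h)) Lk Ls hd m hm1 hmi Near hN
    refine ⟨e, ?_, ?_⟩
    · intro c h
      have := he1 ⟨.inr (.inr c), h⟩ (by
        rw [hLk, Finset.mem_filter]
        exact ⟨Finset.mem_univ _, c, rfl⟩)
      rw [hNear, Finset.mem_filter] at this
      exact this.2
    · intro c c' h h' hmc hmc' hne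
      have hin : ∀ (c : D.Grp) (h : κ (.inr (.inl c)) = .inr j),
          (⟨.inr (.inl c), h⟩ : {c // κ c = .inr j}) ∈ Ls := by
        intro c h
        rw [hLs, Finset.mem_filter]
        exact ⟨Finset.mem_univ _, c, rfl⟩
      exact he2 _ (hin c h) _ (hin c' h') (by
        intro h3
        apply hne
        have := congrArg Subtype.val h3
        simp only at this
        exact Sum.inl.inj (Sum.inr.inj this))
  -- gluing
  have eg : ∀ g : Fin D.Γ, {c // κ c = .inl g} ≃ {r // T.lab r = .inl g} := fun g => (hg g).some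
  choose ej hej1 hej2 using hj
  let es : ∀ K : Fin D.Γ ⊕ Fin D.k, {c // κ c = K} ≃ {r // T.lab r = K} := fun K =>
    match K with
    | .inl g => eg g
    | .inr j => ej j
  let σ : D.Col ≃ Row := (Equiv.sigmaFiberEquiv κ).symm.trans
    ((Equiv.sigmaCongrRight es).trans (Equiv.sigmaFiberEquiv T.lab))
  have hσ : ∀ (K : Fin D.Γ ⊕ Fin D.k) (c : D.Col) (h : κ c = K), σ c = (es K ⟨c, h⟩).1 := by
    intro K c h
    subst h
    rfl
  have hlab : ∀ c, T.lab (σ c) = κ c := fun c => by
    rw [hσ (κ c) c rfl]
    exact (es (κ c) ⟨c, rfl⟩).2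
  refine ⟨σ, ?_, ?_, ?_, ?_, ?_⟩
  · intro c
    unfold Pat.rlab
    rw [hlab c]
    match c with
    | .inl v => rfl
    | .inr (.inl c) =>
      by_cases h : T.Loser c
      · simp [hκ, kcol, Pat.blab, h]
      · simp [hκ, kcol, Pat.blab, h]
    | .inr (.inr c) => rfl
  · intro v
    rw [hlab]
    rfl
  · intro c hc
    rw [hlab]
    simp only [hκ, kcol]
    rw [if_pos hc]
  · intro c
    have h1 : κ (.inr (.inr c)) = .inr (own c) := rfl
    rw [hσ _ _ h1]
    exact (hnear (own c) _ (hej1 (own c) c h1)).2 c rfl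
  · intro c c' hc hc' hcc hne
    have h1 : κ (.inr (.inl c)) = .inr (D.comp c.1) := by
      simp only [hκ, kcol]
      rw [if_pos hc]
    have h2 : κ (.inr (.inl c')) = .inr (D.comp c.1) := by
      simp only [hκ, kcol]
      rw [if_pos hc', hcc]
    have h3 : κ (.inl (D.mainOf c)) = .inr (D.comp c.1) := rfl
    have h4 : κ (.inl (D.mainOf c')) = .inr (D.comp c.1) := by
      simp only [hκ, kcol, Des.mainOf]
      rw [hcc]
    rw [hσ _ _ h1, hσ _ _ h2, hσ _ _ h3, hσ _ _ h4]
    exact hej2 (D.comp c.1) c c' h1 h2 h3 h4 hne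

end Pool.Agent.Helper7.GPat
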