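import Pool.Agent.Helper7.GPat

/-!
# Adapted bijections between the columns of a design and the rows of a pattern
-/

set_option autoImplicit false

namespace Pool.Agent.Helper7.GPat

variable {D : Des} {G : Type} [AddCommGroup G] {Row : Type} [Fintype Row] [DecidableEq Row]

/-- `a` and `a'` are smaller than `b` and `b'`. -/
def PLt (a a' b b' : ℤ) : Prop := a < b ∧ a < b' ∧ a' < b ∧ a' < b'

/-- The bijection `σ` between columns and rows is adapted to the pattern `T`. -/
structure Good (T : Pat D G Row) (σ : D.Col ≃ Row) : Prop where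
  blk : ∀ c, T.rlab (σ c) = T.blab c
  main : ∀ v : D.Main, T.lab (σ (.inl v)) = .inr v.1
  loser : ∀ c : D.Grp, T.Loser c → T.lab (σ (.inr (.inl c))) = .inr (D.comp c.1)
  link : ∀ c : D.Lnk, T.see (σ (.inr (.inr c))) (.inr (.inr c.1)) =
    some (0, T.num (σ (.inr (.inr c))))
  sep : ∀ c c' : D.Grp, T.Loser c → T.Loser c' → D.comp c.1 = D.comp c'.1 → c ≠ c' →
    PLt (T.num (σ (.inr (.inl c)))) (T.num (σ (.inl (D.mainOf c))))
      (T.num (σ (.inr (.inl c')))) (T.num (σ (.inl (D.mainOf c')))) ∨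
    PLt (T.num (σ (.inr (.inl c')))) (T.num (σ (.inl (D.mainOf c'))))
      (T.num (σ (.inr (.inl c)))) (T.num (σ (.inl (D.mainOf c))))

end Pool.Agent.Helper7.GPat
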